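import Mathlib

/-!
# Borel-Cantelli for the integral parts of expanding functions

A set `B` of natural numbers with at most `X / (log X) ^ A` elements in `[X, 2 X]`, for every `A`, contains the integral
part of `f n x` for only finitely many `n`, for almost all `x`, if the functions `f n` expand, `f n y - f n x ≥ δ (y - x) f n x`,
and are at least `exp (n ^ c)`.
-/

set_option autoImplicit false

namespace Pool.Agent.L5helper62.HM

open MeasureTheory Filter Topology Set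

/-- `B` has few elements in dyadic blocks, with any power of the logarithm -/
def Sparse (B : Set ℕ) : Prop :=
  ∀ A : ℕ, ∃ X₀ : ℕ, ∀ X : ℕ, X₀ ≤ X →
    (({v : ℕ | v ∈ B ∧ X ≤ v ∧ v ≤ 2 * X}.ncard : ℕ) : ℝ) ≤ X / Real.log X ^ A

/-- the weight -/
noncomputable def wt (B : Set ℕ) (C : ℕ) (v : ℕ) : ℝ := by
  classical exact if v ∈ B then (Real.log (v + 1) ^ C + 1) / v else 0

theorem wt_nonneg (B : Set ℕ) (C v : ℕ) : 0 ≤ wt B C v := by
  unfold wt
  split_ifs
  · have : 0 ≤ Real.log ((v : ℝ) + 1) := Real.log_nonneg (by linarith [Nat.cast_nonneg (α := ℝ) v])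
    positivity
  · exact le_rfl

/-- the sum over a dyadic block -/
theorem block {B : Set ℕ} (hB : Sparse B) (C : ℕ) : ∃ N₀ : ℕ, 0 < N₀ ∧ ∀ N : ℕ, N₀ ≤ N →
    ∑ v ∈ Finset.Ico (2 ^ N) (2 ^ (N + 1)), wt B C v ≤ (2 * 2 ^ C * 2 ^ (C + 2) : ℝ) / (N : ℝ) ^ 2 := by
  classical
  obtain ⟨X₀, hX⟩ := hB (C + 2)
  refine ⟨X₀ + 1, Nat.succ_pos _, fun N hN => ?_⟩
  have hN1 : 1 ≤ N := by omega
  have hNr : (1 : ℝ) ≤ N := by exact_mod_cast hN1
  have h2N : X₀ ≤ 2 ^ N := by
    have : N < 2 ^ N := Nat.lt_two_pow_self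
    omega
  have h1 := hX (2 ^ N) h2N
  have hl2 : (1 / 2 : ℝ) ≤ Real.log 2 := by
    have := Real.log_two_gt_d9
    linarith
  have hl2' : Real.log 2 ≤ 1 := by
    have := Real.log_two_lt_d9
    linarith
  have hlog : Real.log ((2 ^ N : ℕ) : ℝ) = N * Real.log 2 := by
    push_cast
    rw [Real.log_pow]
  rw [hlog] at h1
  -- the terms
  have hterm : ∀ v ∈ (Finset.Ico (2 ^ N) (2 ^ (N + 1))).filter (fun v => v ∈ B),
      wt B C v ≤ ((((N : ℝ) + 1) ^ C + 1) / 2 ^ N) := by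
    intro v hv
    rw [Finset.mem_filter, Finset.mem_Ico] at hv
    obtain ⟨⟨hv1, hv2⟩, hvB⟩ := hv
    have hv0 : (0 : ℝ) < 2 ^ N := by positivity
    have hvr : (2 : ℝ) ^ N ≤ v := by exact_mod_cast hv1
    have hvr2 : (v : ℝ) + 1 ≤ 2 ^ (N + 1) := by exact_mod_cast hv2
    have h3 : Real.log ((v : ℝ) + 1) ≤ N + 1 := by
      have h4 : Real.log ((v : ℝ) + 1) ≤ Real.log ((2 : ℝ) ^ (N + 1)) :=
        Real.log_le_log (by linarith) hvr2
      rw [Real.log_pow] at h4
      push_cast at h4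
      nlinarith
    have h5 : 0 ≤ Real.log ((v : ℝ) + 1) := Real.log_nonneg (by linarith)
    have h6 : wt B C v = (Real.log (v + 1) ^ C + 1) / v := by
      unfold wt
      rw [if_pos hvB]
    rw [h6]
    have h7 : Real.log ((v : ℝ) + 1) ^ C ≤ ((N : ℝ) + 1) ^ C := pow_le_pow_left₀ h5 h3 C
    exact div_le_div₀ (by positivity) (by linarith) hv0 hvr
  have hsum : ∑ v ∈ Finset.Ico (2 ^ N) (2 ^ (N + 1)), wt B C v =
      ∑ v ∈ (Finset.Ico (2 ^ N) (2 ^ (N + 1))).filter (fun v => v ∈ B), wt B C v := by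
    rw [Finset.sum_filter]
    refine Finset.sum_congr rfl fun v _ => ?_
    unfold wt
    split_ifs <;> rfl
  rw [hsum]
  refine (Finset.sum_le_card_nsmul _ _ _ hterm).trans ?_
  rw [nsmul_eq_mul]
  have hcard : (((Finset.Ico (2 ^ N) (2 ^ (N + 1))).filter (fun v => v ∈ B)).card : ℝ) ≤
      ((2 ^ N : ℕ) : ℝ) / ((N : ℝ) * Real.log 2) ^ (C + 2) := by
    refine le_trans ?_ h1
    rw [← Set.ncard_coe_finset]
    refine Nat.cast_le.2 (Set.ncard_le_ncard ?_ ?_)
    · intro v hv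
      simp only [Finset.coe_filter, Finset.mem_Ico, Set.mem_ofPred_eq] at hv ⊢
      refine ⟨hv.2, hv.1.1, ?_⟩
      have := hv.1.2
      rw [pow_succ] at this
      omega
    · exact (Set.finite_Iic (2 * 2 ^ N)).subset fun v hv => hv.2.2
  have hNl : (N : ℝ) / 2 ≤ N * Real.log 2 := by nlinarith
  have hpos : (0 : ℝ) < (N : ℝ) / 2 := by positivity
  have h8 : ((2 ^ N : ℕ) : ℝ) / ((N : ℝ) * Real.log 2) ^ (C + 2) ≤
      (2 : ℝ) ^ N / ((N : ℝ) / 2) ^ (C + 2) := by
    push_cast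
    exact div_le_div_of_nonneg_left (by positivity) (by positivity)
      (pow_le_pow_left₀ hpos.le hNl _)
  have h9 : ((N : ℝ) + 1) ^ C + 1 ≤ 2 * (2 * N) ^ C := by
    have e1 : ((N : ℝ) + 1) ^ C ≤ (2 * N) ^ C := pow_le_pow_left₀ (by positivity) (by linarith) C
    have e2 : (1 : ℝ) ≤ (2 * N) ^ C := one_le_pow₀ (by linarith)
    linarith
  calc (((Finset.Ico (2 ^ N) (2 ^ (N + 1))).filter (fun v => v ∈ B)).card : ℝ) *
        ((((N : ℝ) + 1) ^ C + 1) / 2 ^ N)
      ≤ ((2 : ℝ) ^ N / ((N : ℝ) / 2) ^ (C + 2)) * ((2 * (2 * N) ^ C) / 2 ^ N) := by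
        refine mul_le_mul (hcard.trans h8) ?_ (by positivity) (by positivity)
        exact div_le_div_of_nonneg_right h9 (by positivity)
    _ = (2 * 2 ^ C * 2 ^ (C + 2) : ℝ) / (N : ℝ) ^ 2 := by
        have hN0 : (N : ℝ) ≠ 0 := by positivity
        rw [div_pow, mul_pow]
        field_simp
        ring

theorem summable_wt {B : Set ℕ} (hB : Sparse B) (C : ℕ) : Summable (wt B C) := by
  classical
  obtain ⟨N₀, hN₀, hb⟩ := block hB C
  have hsum : Summable (fun N : ℕ => (2 * 2 ^ C * 2 ^ (C + 2) : ℝ) / (N : ℝ) ^ 2) := by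
    have := (Real.summable_one_div_nat_pow (p := 2)).2 (by norm_num)
    have h2 := this.mul_left (2 * 2 ^ C * 2 ^ (C + 2) : ℝ)
    refine h2.congr fun N => ?_
    rw [mul_one_div]
  have hnn : ∀ N : ℕ, 0 ≤ (2 * 2 ^ C * 2 ^ (C + 2) : ℝ) / (N : ℝ) ^ 2 := fun N => by positivity
  have key : ∀ N : ℕ, N₀ ≤ N → ∑ v ∈ Finset.range (2 ^ N), wt B C v ≤
      ∑ v ∈ Finset.range (2 ^ N₀), wt B C v +
        ∑ j ∈ Finset.range N, (2 * 2 ^ C * 2 ^ (C + 2) : ℝ) / (j : ℝ) ^ 2 := by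
    intro N hN
    induction N, hN using Nat.le_induction with
    | base =>
      have := Finset.sum_nonneg fun j (_ : j ∈ Finset.range N₀) => hnn j
      linarith
    | succ N hN ih =>
      rw [Finset.sum_range_succ]
      have h1 : ∑ v ∈ Finset.range (2 ^ (N + 1)), wt B C v =
          ∑ v ∈ Finset.range (2 ^ N), wt B C v +
            ∑ v ∈ Finset.Ico (2 ^ N) (2 ^ (N + 1)), wt B C v := by
        rw [Finset.range_eq_Ico, Finset.range_eq_Ico]
        exact (Finset.sum_Ico_consecutive _ (Nat.zero_le _)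
          (Nat.pow_le_pow_right (by norm_num) (Nat.le_succ N))).symm
      rw [h1]
      have := hb N hN
      linarith
  refine summable_of_sum_range_le (c := ∑ v ∈ Finset.range (2 ^ N₀), wt B C v +
    ∑' j : ℕ, (2 * 2 ^ C * 2 ^ (C + 2) : ℝ) / (j : ℝ) ^ 2) (fun v => wt_nonneg B C v) fun n => ?_
  have h2 : ∑ v ∈ Finset.range n, wt B C v ≤ ∑ v ∈ Finset.range (2 ^ (n + N₀)), wt B C v := by
    refine Finset.sum_le_sum_of_subset_of_nonneg ?_ fun v _ _ => wt_nonneg B C v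
    rw [Finset.range_subset_range]
    have h3 : n + N₀ < 2 ^ (n + N₀) := Nat.lt_two_pow_self
    omega
  refine h2.trans ((key (n + N₀) (by omega)).trans ?_)
  have h4 := hsum.sum_le_tsum (Finset.range (n + N₀)) fun j _ => hnn j
  linarith

open scoped ENNReal in
/-- **Borel-Cantelli.** -/
theorem metric {a b δ : ℝ} {C : ℕ} (hδ : 0 < δ) (f : ℕ → ℝ → ℝ)
    (h1 : ∀ n, ∀ x ∈ Icc a b, ∀ y ∈ Icc a b, x ≤ y → δ * (y - x) * f n x ≤ f n y - f n x)
    (h2 : ∀ n, ∀ x ∈ Icc a b, 1 ≤ f n x ∧ (n : ℝ) ≤ Real.log (f n x) ^ C)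
    {B : Set ℕ} (hB : Sparse B) :
    ∀ᵐ x : ℝ, x ∈ Icc a b → ∀ᶠ n in atTop, ⌊f n x⌋₊ ∉ B := by
  classical
  set F : ℕ → ℕ → Set ℝ := fun n v => {x | x ∈ Icc a b ∧ v ∈ B ∧ ⌊f n x⌋₊ = v} with hF
  set E : ℕ → Set ℝ := fun n => {x | x ∈ Icc a b ∧ ⌊f n x⌋₊ ∈ B} with hE
  have hEF : ∀ n, E n ⊆ ⋃ v, F n v := by
    intro n x hx
    rw [mem_iUnion]
    exact ⟨⌊f n x⌋₊, hx.1, hx.2, rfl⟩
  set w : ℕ → ℕ → ℝ≥0∞ := fun n v => if v ∈ B ∧ (n : ℝ) ≤ Real.log (v + 1) ^ C then
    ENNReal.ofReal (2 / (δ * v)) else 0 with hw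
  have hFw : ∀ n v, volume (F n v) ≤ w n v := by
    intro n v
    rcases (F n v).eq_empty_or_nonempty with hem | ⟨x₀, hx₀, hvB, hv₀⟩
    · rw [hem, measure_empty]
      exact zero_le
    have hf1 := (h2 n x₀ hx₀).1
    have hv1 : 1 ≤ v := by
      rw [← hv₀]
      exact Nat.le_floor (by exact_mod_cast hf1)
    have hvr : (1 : ℝ) ≤ v := by exact_mod_cast hv1
    have hlt : f n x₀ < v + 1 := by
      rw [← hv₀]
      exact Nat.lt_floor_add_one _
    have hn : (n : ℝ) ≤ Real.log (v + 1) ^ C := by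
      refine (h2 n x₀ hx₀).2.trans (pow_le_pow_left₀ (Real.log_nonneg hf1) ?_ C)
      exact Real.log_le_log (by linarith) hlt.le
    simp only [hw]
    rw [if_pos ⟨hvB, hn⟩]
    have hdiam : ∀ x ∈ F n v, ∀ y ∈ F n v, x ≤ y → y - x ≤ 1 / (δ * v) := by
      rintro x ⟨hx, -, hxv⟩ y ⟨hy, -, hyv⟩ hxy
      have e1 := h1 n x hx y hy hxy
      have e2 : (v : ℝ) ≤ f n x := by
        rw [← hxv]
        exact Nat.floor_le (by linarith [(h2 n x hx).1])
      have e3 : f n y < v + 1 := by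
        rw [← hyv]
        exact Nat.lt_floor_add_one _
      rw [le_div_iff₀ (by positivity)]
      have e4 : δ * (y - x) * v ≤ δ * (y - x) * f n x :=
        mul_le_mul_of_nonneg_left e2 (mul_nonneg hδ.le (by linarith))
      nlinarith
    have hsub : F n v ⊆ Icc (x₀ - 1 / (δ * v)) (x₀ + 1 / (δ * v)) := by
      intro x hx
      rcases le_total x x₀ with h | h
      · have := hdiam x hx x₀ ⟨hx₀, hvB, hv₀⟩ h
        have h0 : 0 ≤ 1 / (δ * v) := by positivity
        exact ⟨by linarith, by linarith⟩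
      · have := hdiam x₀ ⟨hx₀, hvB, hv₀⟩ x hx h
        have h0 : 0 ≤ 1 / (δ * v) := by positivity
        exact ⟨by linarith, by linarith⟩
    refine (measure_mono hsub).trans ?_
    rw [Real.volume_Icc]
    refine ENNReal.ofReal_le_ofReal (le_of_eq ?_)
    ring
  have hrow : ∀ v, ∑' n, w n v ≤ ENNReal.ofReal (2 / δ * wt B C v) := by
    intro v
    by_cases hvB : v ∈ B
    · have hle : ∀ n, w n v ≤ if n ∈ Finset.range (⌊Real.log ((v : ℝ) + 1) ^ C⌋₊ + 1) then
          ENNReal.ofReal (2 / (δ * v)) else 0 := by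
        intro n
        simp only [hw]
        by_cases hn : (n : ℝ) ≤ Real.log (v + 1) ^ C
        · rw [if_pos ⟨hvB, hn⟩, if_pos]
          rw [Finset.mem_range, Nat.lt_succ_iff]
          exact Nat.le_floor hn
        · rw [if_neg fun h => hn h.2]
          exact zero_le
      refine (ENNReal.tsum_le_tsum hle).trans ?_
      rw [tsum_eq_sum (s := Finset.range (⌊Real.log ((v : ℝ) + 1) ^ C⌋₊ + 1)) (fun n hn => if_neg hn)]
      rw [Finset.sum_ite_mem, Finset.inter_self, Finset.sum_const, Finset.card_range, nsmul_eq_mul]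
      have hl0 : 0 ≤ Real.log ((v : ℝ) + 1) :=
        Real.log_nonneg (by linarith [Nat.cast_nonneg (α := ℝ) v])
      have e1 : ((⌊Real.log ((v : ℝ) + 1) ^ C⌋₊ + 1 : ℕ) : ℝ≥0∞) ≤
          ENNReal.ofReal (Real.log ((v : ℝ) + 1) ^ C + 1) := by
        rw [← ENNReal.ofReal_natCast]
        refine ENNReal.ofReal_le_ofReal ?_
        push_cast
        have := Nat.floor_le (pow_nonneg hl0 C)
        linarith
      refine (mul_le_mul' e1 le_rfl).trans ?_
      rw [← ENNReal.ofReal_mul (by positivity)]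
      refine ENNReal.ofReal_le_ofReal (le_of_eq ?_)
      unfold wt
      rw [if_pos hvB]
      rcases Nat.eq_zero_or_pos v with h0 | h0
      · rw [h0]
        simp
      · have : (v : ℝ) ≠ 0 := by positivity
        field_simp
    · have : ∀ n, w n v = 0 := fun n => if_neg fun h => hvB h.1
      simp only [this, tsum_zero]
      exact zero_le
  have hfin : ∑' n, volume (E n) ≠ ∞ := by
    refine ne_top_of_le_ne_top (b := ∑' v, ENNReal.ofReal (2 / δ * wt B C v)) ?_ ?_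
    · exact ((summable_wt hB C).mul_left (2 / δ)).tsum_ofReal_ne_top
    · calc ∑' n, volume (E n) ≤ ∑' n, ∑' v, w n v := by
            refine ENNReal.tsum_le_tsum fun n => ?_
            exact ((measure_mono (hEF n)).trans (measure_iUnion_le _)).trans
              (ENNReal.tsum_le_tsum fun v => hFw n v)
        _ = ∑' v, ∑' n, w n v := ENNReal.tsum_comm
        _ ≤ _ := ENNReal.tsum_le_tsum hrow
  have hbc := ae_eventually_notMem hfin
  filter_upwards [hbc] with x hx hxI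
  filter_upwards [hx] with n hn hB'
  exact hn ⟨hxI, hB'⟩

end Pool.Agent.L5helper62.HM
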