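import Pool.Agent.Results.MP_5d318d_nt.ModuliInClasses
import Pool.Agent.L5helper62.HM.Metric

/-!
# The integers near which Hooley's asymptotic formula fails for some modulus are sparse
-/

set_option autoImplicit false

namespace Pool.Agent.L5helper62.HM

open Finset
open Pool.Agent.Results.MP_5d318d_nt.ModuliInClasses (G Good exceptional)

/-- the integers `v` such that some modulus `t v + h` with `t`, `|h|` at most `(log v) ^ K` does not satisfy the
asymptotic formula -/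
def Bad (ε : ℝ) (K : ℕ) : Set ℕ :=
  {v | ∃ (t : ℕ) (h : ℤ) (Q : ℕ), 1 ≤ t ∧ (t : ℝ) ≤ Real.log v ^ K ∧ |(h : ℝ)| ≤ Real.log v ^ K ∧
    (Q : ℤ) = t * v + h ∧ ¬ Good ε (Real.log Q ^ K) Q}

theorem good_mono {ε R R' : ℝ} {Q : ℕ} (hR : R ≤ R') (h : Good ε R' Q) : Good ε R Q := by
  intro x h1 h2
  exact h x h1 (h2.trans (mul_le_mul_of_nonneg_left hR (Nat.cast_nonneg Q)))

theorem sparse_bad (ε : ℝ) (hε : 0 < ε) (K : ℕ) : Sparse (Bad ε K) := by
  classical
  intro A
  obtain ⟨Y₀, hY⟩ := Pool.Agent.Results.MP_5d318d_nt.ModuliInClasses.result ε (1 / 6) hε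
    (by norm_num) (A + 2 * K + 1) (K + 1) K
  -- large `X`
  have hev : ∀ᶠ X : ℝ in Filter.atTop, Real.log (2 * X) ^ K ≤ Real.sqrt X / 2 := by
    have h0 := Real.isLittleO_pow_log_id_atTop (n := 2 * K)
    have h1 := (h0.def (c := 1 / 8) (by norm_num))
    have h2 : Filter.Tendsto (fun X : ℝ => 2 * X) Filter.atTop Filter.atTop :=
      Filter.tendsto_id.const_mul_atTop (by norm_num)
    filter_upwards [h2.eventually h1, Filter.eventually_ge_atTop (1 : ℝ)] with X hX hX1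
    have hl : 0 ≤ Real.log (2 * X) := Real.log_nonneg (by linarith)
    simp only [id, Real.norm_eq_abs] at hX
    rw [abs_of_nonneg (pow_nonneg hl _), abs_of_nonneg (by linarith : (0 : ℝ) ≤ 2 * X)] at hX
    have h3 : (Real.log (2 * X) ^ K) ^ 2 ≤ (Real.sqrt X / 2) ^ 2 := by
      rw [div_pow, Real.sq_sqrt (by linarith), ← pow_mul, mul_comm K 2]
      linarith
    exact le_of_sq_le_sq h3 (by positivity)
  have hev2 : ∀ᶠ X : ℝ in Filter.atTop, (9 * 4 ^ K + 6 : ℝ) ≤ Real.log X :=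
    Real.tendsto_log_atTop.eventually (Filter.eventually_ge_atTop _)
  obtain ⟨Z, hZ⟩ := Filter.eventually_atTop.1
    ((hev.and hev2).and ((Filter.eventually_ge_atTop (16 : ℝ)).and (Filter.eventually_ge_atTop Y₀)))
  refine ⟨⌈Z⌉₊, fun X hX => ?_⟩
  have hXZ : Z ≤ X := (Nat.le_ceil Z).trans (by exact_mod_cast hX)
  obtain ⟨⟨c1, c2⟩, c3, c4⟩ := hZ X hXZ
  obtain ⟨L, hL⟩ : ∃ L, L = Real.log (2 * (X : ℝ)) := ⟨_, rfl⟩
  obtain ⟨l, hl⟩ : ∃ l, l = Real.log (X : ℝ) := ⟨_, rfl⟩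
  rw [← hL] at c1
  rw [← hl] at c2
  have hX0 : (0 : ℝ) < X := by linarith
  have h4K : (1 : ℝ) ≤ 4 ^ K := one_le_pow₀ (by norm_num)
  have hl15 : 15 ≤ l := by linarith
  have hlL : l ≤ L := by
    rw [hl, hL]
    exact Real.log_le_log hX0 (by linarith)
  have hL2 : L ≤ 2 * l := by
    rw [hL, Real.log_mul (by norm_num) hX0.ne', ← hl]
    have := Real.log_two_lt_d9
    linarith
  have hL0 : 0 ≤ L := by linarith
  have hsq : Real.sqrt X ≤ X := by
    rw [Real.sqrt_le_left hX0.le]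
    nlinarith
  set M : ℕ := ⌊L ^ K⌋₊ with hM
  have hML : (M : ℝ) ≤ L ^ K := Nat.floor_le (by positivity)
  set V : ℕ × ℤ → Set ℕ := fun p => {v | ∃ Q : ℕ, (Q : ℤ) = p.1 * v + p.2 ∧
    Q ∈ exceptional ε (K + 1) (3 * p.1 * X) p.1 p.2} with hV
  -- the covering
  have hcov : {v : ℕ | v ∈ Bad ε K ∧ X ≤ v ∧ v ≤ 2 * X} ⊆
      ⋃ p ∈ (Icc 1 M) ×ˢ (Icc (-(M : ℤ)) M), V p := by
    rintro v ⟨⟨t, h, Q, ht1, htK, hhK, hQ, hbad⟩, hv1, hv2⟩
    have hvr1 : (X : ℝ) ≤ v := by exact_mod_cast hv1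
    have hvr2 : (v : ℝ) ≤ 2 * X := by exact_mod_cast hv2
    have hlv : Real.log v ^ K ≤ L ^ K := by
      refine pow_le_pow_left₀ (Real.log_nonneg (by linarith)) ?_ K
      rw [hL]
      exact Real.log_le_log (by linarith) hvr2
    have htL : (t : ℝ) ≤ L ^ K := htK.trans hlv
    have hhL : |(h : ℝ)| ≤ L ^ K := hhK.trans hlv
    have ht1r : (1 : ℝ) ≤ t := by exact_mod_cast ht1
    rw [Set.mem_iUnion₂]
    refine ⟨(t, h), ?_, Q, hQ, ?_⟩
    · rw [mem_product, mem_Icc, mem_Icc]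
      have hM1 : t ≤ M := Nat.le_floor htL
      have hM2 : h.natAbs ≤ M := Nat.le_floor (by rw [Nat.cast_natAbs, Int.cast_abs]; exact hhL)
      refine ⟨⟨ht1, hM1⟩, ?_, ?_⟩
      · simp only
        omega
      · simp only
        omega
    · have hQr : (Q : ℝ) = t * v + h := by exact_mod_cast congrArg (fun z : ℤ => (z : ℝ)) hQ
      have hh := abs_le.1 hhL
      have htX : (X : ℝ) ≤ t * X := by nlinarith
      have htv1 : (t : ℝ) * X ≤ t * v := mul_le_mul_of_nonneg_left hvr1 (by linarith)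
      have htv2 : (t : ℝ) * v ≤ t * (2 * X) := mul_le_mul_of_nonneg_left hvr2 (by linarith)
      have hQ1 : (t : ℝ) * X / 2 ≤ Q := by
        rw [hQr]
        linarith [hh.1]
      have hQ2 : (Q : ℝ) ≤ 3 * t * X := by
        rw [hQr]
        nlinarith [hh.2]
      have hX' : (X : ℝ) ≤ 3 * t * X := by nlinarith
      have hlX' : l ≤ Real.log (3 * t * X) := by
        rw [hl]
        exact Real.log_le_log hX0 hX'
      have hQpos : (0 : ℝ) < Q := by nlinarith
      have hQone : (1 : ℝ) ≤ Q := by exact_mod_cast (by exact_mod_cast hQpos : 0 < Q)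
      refine ⟨by exact_mod_cast hQpos, hQ2, ?_, ?_, ?_⟩
      · have e1 : Real.log (3 * t * X) ^ 1 ≤ Real.log (3 * t * X) ^ (K + 1) :=
          pow_le_pow_right₀ (by linarith) (by omega)
        rw [pow_one] at e1
        have e2 : (6 : ℝ) ≤ Real.log (3 * t * X) ^ (K + 1) := by linarith
        calc (3 * t * X : ℝ) = (t * X / 2) * 6 := by ring
          _ ≤ Q * Real.log (3 * t * X) ^ (K + 1) :=
            mul_le_mul hQ1 e2 (by norm_num) hQpos.le
      · rw [hQ]
        exact (Int.modEq_iff_dvd.2 ⟨-(v : ℤ), by ring⟩)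
      · intro hg
        apply hbad
        refine good_mono ?_ hg
        have e3 : Real.log Q ≤ Real.log (3 * t * X) := Real.log_le_log hQpos hQ2
        have e4 : Real.log Q ^ K ≤ Real.log (3 * t * X) ^ K :=
          pow_le_pow_left₀ (Real.log_nonneg hQone) e3 K
        exact e4.trans (pow_le_pow_right₀ (by linarith) (by omega))
  -- each piece
  have hpiece : ∀ p ∈ (Icc 1 M) ×ˢ (Icc (-(M : ℤ)) M), (V p).Finite ∧
      ((V p).ncard : ℝ) ≤ 3 * X / l ^ (A + 2 * K + 1) := by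
    rintro ⟨t, h⟩ hp
    rw [mem_product, mem_Icc, mem_Icc] at hp
    obtain ⟨⟨ht1, htM⟩, -, -⟩ := hp
    simp only at ht1 htM
    have ht1r : (1 : ℝ) ≤ t := by exact_mod_cast ht1
    have htL : (t : ℝ) ≤ L ^ K := le_trans (by exact_mod_cast htM) hML
    have htX : (X : ℝ) ≤ t * X := by nlinarith
    have hX' : (X : ℝ) ≤ 3 * t * X := by nlinarith
    have hlX' : l ≤ Real.log (3 * t * X) := by
      rw [hl]
      exact Real.log_le_log hX0 hX'
    have hLX' : L ≤ Real.log (3 * t * X) := by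
      rw [hL]
      exact Real.log_le_log (by linarith) (by nlinarith)
    have hroot : Real.sqrt X ≤ (3 * t * X : ℝ) ^ (2 / 3 - 1 / 6 : ℝ) := by
      have : (2 / 3 - 1 / 6 : ℝ) = 1 / 2 := by norm_num
      rw [this, ← Real.sqrt_eq_rpow]
      exact Real.sqrt_le_sqrt hX'
    obtain ⟨h1, h2⟩ := hY (3 * t * X) (c4.trans hX') t ht1 (by
        have h0 : 0 ≤ Real.sqrt X := Real.sqrt_nonneg _
        linarith) h (by
        have g1 : Int.gcd h t ≤ t := by
          have := Nat.le_of_dvd (by omega) (Int.natCast_dvd_natCast.1 (Int.gcd_dvd_right h t))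
          exact this
        have g2 : (Int.gcd h t : ℝ) ≤ t := by exact_mod_cast g1
        exact g2.trans (htL.trans (pow_le_pow_left₀ hL0 hLX' K)))
    have hinj : Set.InjOn (fun v : ℕ => ((t * v + h : ℤ)).toNat) (V (t, h)) := by
      rintro v ⟨Q, hQ, -⟩ v' ⟨Q', hQ', -⟩ he
      simp only at hQ hQ' he
      rw [← hQ, ← hQ', Int.toNat_natCast, Int.toNat_natCast] at he
      have : (t : ℤ) * v = t * v' := by
        have : (Q : ℤ) = Q' := by exact_mod_cast he
        linarith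
      have ht0 : (t : ℤ) ≠ 0 := by omega
      exact_mod_cast mul_left_cancel₀ ht0 this
    have hmaps : Set.MapsTo (fun v : ℕ => ((t * v + h : ℤ)).toNat) (V (t, h))
        (exceptional ε (K + 1) (3 * t * X) t h) := by
      rintro v ⟨Q, hQ, hQe⟩
      simp only at hQ ⊢
      rw [← hQ, Int.toNat_natCast]
      exact hQe
    refine ⟨Set.Finite.of_injOn hmaps hinj h1, ?_⟩
    have h3 : ((V (t, h)).ncard : ℝ) ≤ ((exceptional ε (K + 1) (3 * t * X) t h).ncard : ℝ) := by
      exact_mod_cast Set.ncard_le_ncard_of_injOn _ hmaps hinj h1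
    refine h3.trans (h2.trans ?_)
    have h5 : (3 * t * X : ℝ) / (t * Real.log (3 * t * X) ^ (A + 2 * K + 1)) =
        3 * X / Real.log (3 * t * X) ^ (A + 2 * K + 1) := by
      have : (t : ℝ) ≠ 0 := by linarith
      field_simp
    rw [h5]
    exact div_le_div_of_nonneg_left (by positivity) (by positivity)
      (pow_le_pow_left₀ (by linarith) hlX' _)
  have hfin : (⋃ p ∈ (Icc 1 M) ×ˢ (Icc (-(M : ℤ)) M), V p).Finite :=
    Set.Finite.biUnion (Finset.finite_toSet _) fun p hp => (hpiece p hp).1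
  have k1 : (({v : ℕ | v ∈ Bad ε K ∧ X ≤ v ∧ v ≤ 2 * X}.ncard : ℕ) : ℝ) ≤
      ∑ p ∈ (Icc 1 M) ×ˢ (Icc (-(M : ℤ)) M), ((V p).ncard : ℝ) := by
    exact_mod_cast (Set.ncard_le_ncard hcov hfin).trans (Finset.set_ncard_biUnion_le _ _)
  refine k1.trans ((Finset.sum_le_card_nsmul _ _ _ fun p hp => (hpiece p hp).2).trans ?_)
  rw [nsmul_eq_mul, card_product, Nat.card_Icc, Int.card_Icc]
  have hcard : (((M + 1 - 1) * ((M : ℤ) + 1 - -(M : ℤ)).toNat : ℕ) : ℝ) ≤ 3 * L ^ (2 * K) := by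
    have e0 : ((M : ℤ) + 1 - -(M : ℤ)).toNat = 2 * M + 1 := by omega
    rw [e0, Nat.add_sub_cancel]
    rcases Nat.eq_zero_or_pos M with hM0 | hM0
    · rw [hM0]
      simp only [zero_mul, Nat.cast_zero]
      positivity
    · have hM1 : (1 : ℝ) ≤ M := by exact_mod_cast hM0
      push_cast
      calc (M : ℝ) * (2 * M + 1) ≤ M * (3 * M) :=
            mul_le_mul_of_nonneg_left (by linarith) (by linarith)
        _ = 3 * (M : ℝ) ^ 2 := by ring
        _ ≤ 3 * (L ^ K) ^ 2 := by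
            have := pow_le_pow_left₀ (by linarith : (0 : ℝ) ≤ M) hML 2
            linarith
        _ = 3 * L ^ (2 * K) := by rw [← pow_mul, mul_comm K 2]
  have hL2K : L ^ (2 * K) ≤ 4 ^ K * l ^ (2 * K) := by
    calc L ^ (2 * K) ≤ (2 * l) ^ (2 * K) := pow_le_pow_left₀ hL0 hL2 _
      _ = 4 ^ K * l ^ (2 * K) := by
          rw [mul_pow, pow_mul]
          norm_num
  have hl0 : 0 < l := by linarith
  calc (((M + 1 - 1) * ((M : ℤ) + 1 - -(M : ℤ)).toNat : ℕ) : ℝ) * (3 * X / l ^ (A + 2 * K + 1))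
      ≤ (3 * (4 ^ K * l ^ (2 * K))) * (3 * X / l ^ (A + 2 * K + 1)) := by
        refine mul_le_mul_of_nonneg_right (hcard.trans ?_) (by positivity)
        linarith
    _ = (9 * 4 ^ K) * X / (l ^ A * l) := by
        rw [show A + 2 * K + 1 = A + 1 + 2 * K by ring, pow_add, pow_succ]
        field_simp
        ring
    _ ≤ l * X / (l ^ A * l) := by
        refine div_le_div_of_nonneg_right (mul_le_mul_of_nonneg_right ?_ hX0.le) (by positivity)
        linarith
    _ = X / l ^ A := by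
        field_simp
    _ ≤ X / Real.log X ^ A := by rw [hl]

end Pool.Agent.L5helper62.HM
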